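import Mathlib

/-!
The inclusion matrix of the `g`-subsets and the `(g+1)`-subsets of a set with `2 g + 1` elements is
injective if `(g + 1)! ≠ 0`.
-/

set_option autoImplicit false

namespace Pool.Agent.N186.HK

open Finset

lemma sum_pairs {D : Type*} [AddCommMonoid D] (V : Finset ℕ) (g : ℕ) (G : Finset ℕ → ℕ → D) :
    ∑ U ∈ V.powersetCard (g + 1), ∑ i ∈ U, G (U.erase i) i =
      ∑ T ∈ V.powersetCard g, ∑ i ∈ V \ T, G T i := by
  rw [Finset.sum_sigma', Finset.sum_sigma']
  refine Finset.sum_bij' (fun x _ => ⟨x.1.erase x.2, x.2⟩) (fun x _ => ⟨insert x.2 x.1, x.2⟩)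
    ?_ ?_ ?_ ?_ ?_
  · rintro ⟨U, i⟩ h
    simp only [Finset.mem_sigma, Finset.mem_powersetCard, Finset.mem_sdiff] at h ⊢
    exact ⟨⟨(Finset.erase_subset _ _).trans h.1.1, by
      rw [Finset.card_erase_of_mem h.2, h.1.2]; rfl⟩, h.1.1 h.2, Finset.notMem_erase _ _⟩
  · rintro ⟨T, i⟩ h
    simp only [Finset.mem_sigma, Finset.mem_powersetCard, Finset.mem_sdiff] at h ⊢
    refine ⟨⟨?_, by rw [Finset.card_insert_of_notMem h.2.2, h.1.2]⟩, Finset.mem_insert_self _ _⟩
    exact Finset.insert_subset h.2.1 h.1.1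
  · rintro ⟨U, i⟩ h
    simp only [Finset.mem_sigma] at h
    simp [Finset.insert_erase h.2]
  · rintro ⟨T, i⟩ h
    simp only [Finset.mem_sigma, Finset.mem_sdiff] at h
    simp [Finset.erase_insert h.2.2]
  · rintro ⟨U, i⟩ h
    rfl

/-- the sum of the values at the sets which meet `T₀` in `j` elements -/
lemma rec_step {D : Type*} [CommRing D] (V T₀ : Finset ℕ) (g : ℕ) (hV : V.card = 2 * g + 1)
    (hT : T₀ ∈ V.powersetCard g) (f : Finset ℕ → D)
    (hf : ∀ U ∈ V.powersetCard (g + 1), ∑ i ∈ U, f (U.erase i) = 0) (j : ℕ) (hj : j ≤ g) :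
    ((j + 1 : ℕ) : D) * ∑ T ∈ (V.powersetCard g).filter (fun T => (T ∩ T₀).card = j), f T +
      ((g + 1 - j : ℕ) : D) *
        ∑ T ∈ (V.powersetCard g).filter (fun T => (T ∩ T₀).card + 1 = j), f T = 0 := by
  classical
  rw [Finset.mem_powersetCard] at hT
  have h1 : ∑ U ∈ V.powersetCard (g + 1), ∑ i ∈ U,
      (if ((insert i (U.erase i)) ∩ T₀).card = j then f (U.erase i) else 0) = 0 := by
    refine Finset.sum_eq_zero fun U hU => ?_
    have : ∀ i ∈ U, (if ((insert i (U.erase i)) ∩ T₀).card = j then f (U.erase i) else 0) =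
        if (U ∩ T₀).card = j then f (U.erase i) else 0 := fun i hi => by
      rw [Finset.insert_erase hi]
    rw [Finset.sum_congr rfl this]
    by_cases h : (U ∩ T₀).card = j
    · simp only [if_pos h]
      exact hf U hU
    · simp only [if_neg h, Finset.sum_const_zero]
  rw [sum_pairs V g (fun T i => if ((insert i T) ∩ T₀).card = j then f T else 0)] at h1
  rw [← h1, Finset.sum_filter, Finset.sum_filter, Finset.mul_sum, Finset.mul_sum,
    ← Finset.sum_add_distrib]
  refine Finset.sum_congr rfl fun T hTT => ?_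
  rw [Finset.mem_powersetCard] at hTT
  rw [← Finset.sum_filter, Finset.sum_const, nsmul_eq_mul]
  have hun : (T ∪ T₀).card + (T ∩ T₀).card = 2 * g := by
    rw [Finset.card_union_add_card_inter, hTT.2, hT.2]; omega
  have hsub : T ∪ T₀ ⊆ V := Finset.union_subset hTT.1 hT.1
  by_cases hc : (T ∩ T₀).card = j
  · rw [if_pos hc, if_neg (by omega), mul_zero, add_zero]
    congr 2
    have : (V \ T).filter (fun i => ((insert i T) ∩ T₀).card = j) = V \ (T ∪ T₀) := by
      ext i
      simp only [Finset.mem_filter, Finset.mem_sdiff, Finset.mem_union, not_or]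
      constructor
      · rintro ⟨⟨h2, h3⟩, h4⟩
        refine ⟨h2, h3, fun h5 => ?_⟩
        rw [Finset.insert_inter_of_mem h5, Finset.card_insert_of_notMem
          (fun h6 => h3 (Finset.mem_inter.1 h6).1)] at h4
        omega
      · rintro ⟨h2, h3, h5⟩
        exact ⟨⟨h2, h3⟩, by rw [Finset.insert_inter_of_notMem h5]; exact hc⟩
    rw [this, Finset.card_sdiff_of_subset hsub, hV]
    omega
  · rw [if_neg hc, mul_zero, zero_add]
    by_cases hc' : (T ∩ T₀).card + 1 = j
    · rw [if_pos hc']
      congr 2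
      have : (V \ T).filter (fun i => ((insert i T) ∩ T₀).card = j) = T₀ \ T := by
        ext i
        simp only [Finset.mem_filter, Finset.mem_sdiff]
        constructor
        · rintro ⟨⟨h2, h3⟩, h4⟩
          refine ⟨?_, h3⟩
          by_contra h5
          rw [Finset.insert_inter_of_notMem h5] at h4
          omega
        · rintro ⟨h5, h3⟩
          refine ⟨⟨hT.1 h5, h3⟩, ?_⟩
          rw [Finset.insert_inter_of_mem h5, Finset.card_insert_of_notMem
            (fun h6 => h3 (Finset.mem_inter.1 h6).1)]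
          exact hc'
      rw [this, Finset.card_sdiff, hT.2]
      rw [Finset.inter_comm] at hc'
      rw [Finset.inter_comm T₀ T] at *
      omega
    · rw [if_neg hc', mul_zero]
      have : (V \ T).filter (fun i => ((insert i T) ∩ T₀).card = j) = ∅ := by
        rw [Finset.filter_eq_empty_iff]
        intro i hi h4
        rw [Finset.mem_sdiff] at hi
        by_cases h5 : i ∈ T₀
        · rw [Finset.insert_inter_of_mem h5, Finset.card_insert_of_notMem
            (fun h6 => hi.2 (Finset.mem_inter.1 h6).1)] at h4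
          exact hc' h4
        · rw [Finset.insert_inter_of_notMem h5] at h4
          exact hc h4
      rw [this, Finset.card_empty, Nat.cast_zero, zero_mul]

lemma inj_one {D : Type*} [CommRing D] [IsDomain D] (V : Finset ℕ) (g : ℕ)
    (hV : V.card = 2 * g + 1) (hg : ((g + 1).factorial : D) ≠ 0) (f : Finset ℕ → D)
    (hf : ∀ U ∈ V.powersetCard (g + 1), ∑ i ∈ U, f (U.erase i) = 0) :
    ∀ T ∈ V.powersetCard g, f T = 0 := by
  classical
  intro T₀ hT₀
  have hne : ∀ j ≤ g, ((j + 1 : ℕ) : D) ≠ 0 := by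
    intro j hj h0
    apply hg
    obtain ⟨c, hc⟩ := Nat.dvd_factorial (Nat.succ_pos j) (Nat.succ_le_succ hj)
    rw [hc, Nat.cast_mul, h0, zero_mul]
  have key : ∀ j ≤ g, ∑ T ∈ (V.powersetCard g).filter (fun T => (T ∩ T₀).card = j), f T = 0 := by
    intro j
    induction j with
    | zero =>
      intro hj
      have h := rec_step V T₀ g hV hT₀ f hf 0 hj
      rw [show (V.powersetCard g).filter (fun T => (T ∩ T₀).card + 1 = 0) = ∅ by
        rw [Finset.filter_eq_empty_iff]; intro T _; omega, Finset.sum_empty, mul_zero, add_zero] at h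
      exact (mul_eq_zero.1 h).resolve_left (hne 0 hj)
    | succ j ih =>
      intro hj
      have h := rec_step V T₀ g hV hT₀ f hf (j + 1) hj
      rw [show (V.powersetCard g).filter (fun T => (T ∩ T₀).card + 1 = j + 1) =
        (V.powersetCard g).filter (fun T => (T ∩ T₀).card = j) by
        refine Finset.filter_congr fun T _ => ?_; omega, ih (by omega), mul_zero, add_zero] at h
      exact (mul_eq_zero.1 h).resolve_left (hne (j + 1) hj)
  have h := key g le_rfl
  have hT := Finset.mem_powersetCard.1 hT₀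
  rw [show (V.powersetCard g).filter (fun T => (T ∩ T₀).card = g) = {T₀} by
    ext T
    simp only [Finset.mem_filter, Finset.mem_powersetCard, Finset.mem_singleton]
    constructor
    · rintro ⟨⟨h1, h2⟩, h3⟩
      have e1 : T ∩ T₀ = T := Finset.eq_of_subset_of_card_le Finset.inter_subset_left (by omega)
      have e2 : T ∩ T₀ = T₀ :=
        Finset.eq_of_subset_of_card_le Finset.inter_subset_right (by rw [hT.2]; omega)
      rw [← e1, e2]
    · rintro rfl
      exact ⟨hT, by rw [Finset.inter_self, hT.2]⟩, Finset.sum_singleton] at h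
  exact h

/-- the weighted form -/
lemma inj_weighted {D : Type*} [CommRing D] [IsDomain D] (V : Finset ℕ) (g : ℕ)
    (hV : V.card = 2 * g + 1) (hg : ((g + 1).factorial : D) ≠ 0) (w : ℕ → D)
    (hw : ∀ i ∈ V, w i ≠ 0) (f : Finset ℕ → D)
    (hf : ∀ U ∈ V.powersetCard (g + 1), ∑ i ∈ U, w i * f (U.erase i) = 0) :
    ∀ T ∈ V.powersetCard g, f T = 0 := by
  classical
  intro T hT
  have h := inj_one V g hV hg (fun T => (∏ i ∈ V \ T, w i) * f T) (fun U hU => by
    have hUV := (Finset.mem_powersetCard.1 hU).1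
    rw [← mul_zero (∏ i ∈ V \ U, w i), ← hf U hU, Finset.mul_sum]
    refine Finset.sum_congr rfl fun i hi => ?_
    have : V \ U.erase i = insert i (V \ U) := by
      ext a
      simp only [Finset.mem_sdiff, Finset.mem_erase, Finset.mem_insert, not_and, not_not]
      constructor
      · rintro ⟨h1, h2⟩
        by_cases ha : a = i
        · exact Or.inl ha
        · exact Or.inr ⟨h1, fun h3 => by
            have := h2 ha
            exact this h3⟩
      · rintro (rfl | ⟨h1, h2⟩)
        · exact ⟨hUV hi, fun h => absurd rfl h⟩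
        · exact ⟨h1, fun _ h3 => h2 h3⟩
    rw [this, Finset.prod_insert (fun h => (Finset.mem_sdiff.1 h).2 hi)]
    ring) T hT
  exact (mul_eq_zero.1 h).resolve_left
    (Finset.prod_ne_zero_iff.2 fun i hi => hw i (Finset.mem_sdiff.1 hi).1)

end Pool.Agent.N186.HK
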