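import Pool.Agent.N186.HK.Pm
import Pool.Agent.N186.HK.Count

/-!
The two linear algebra arguments over a domain.
-/

set_option autoImplicit false

namespace Pool.Agent.N186.HK

open Matrix Finset

variable {D : Type*} [CommRing D] [IsDomain D]

/-- rows `0, …, e - 1` and `i`, columns `0, …, e` -/
def bord (x : ℕ → D) (e i : ℕ) : Matrix (Fin (e + 1)) (Fin (e + 1)) D :=
  Matrix.of fun r j => if r.val < e then x (r.val + j.val) else x (i + j.val)

lemma exists_comb (x : ℕ → D) (e : ℕ) :
    ∃ c : Fin (e + 1) → D, c ≠ 0 ∧ ∀ r < e, ∑ j : Fin (e + 1), x (r + j.val) * c j = 0 := by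
  let M : Matrix (Fin (e + 1)) (Fin (e + 1)) D :=
    Matrix.of fun r j => if r.val < e then x (r.val + j.val) else 0
  have hM : M.det = 0 := by
    refine Matrix.det_eq_zero_of_row_eq_zero (Fin.last e) fun j => ?_
    simp [M]
  obtain ⟨c, hc, h⟩ := Matrix.exists_mulVec_eq_zero_iff.2 hM
  refine ⟨c, hc, fun r hr => ?_⟩
  have := congrFun h ⟨r, by omega⟩
  simp only [Matrix.mulVec, dotProduct, M, Matrix.of_apply, if_pos hr, Pi.zero_apply] at this
  exact this

theorem core_pos (x : ℕ → D) (t e g : ℕ) (ht : e + g + 1 = t)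
    (hg : ((g + 1).factorial : D) ≠ 0)
    (hH : ∀ (R : Finset ℕ) (cs : List ℕ), R.card = t → cs.length = t → (∀ i ∈ R, i < t + g) →
      (∀ c ∈ cs, c < t + e) → cs.Nodup → pm x R cs = 0)
    (hdet : ∀ i, e ≤ i → i < t + g → (bord x e i).det ≠ 0) :
    pm x (Finset.range (t - 1)) (List.range' (e + 1) (t - 1)) = 0 := by
  classical
  obtain ⟨c, hc, hc0⟩ := exists_comb x e
  set S := List.range' (e + 1) (t - 1) with hS
  let w : ℕ → D := fun i => ∑ j : Fin (e + 1), x (i + j.val) * c j
  have hw : ∀ i ∈ Finset.Ico e (t + g), w i ≠ 0 := by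
    intro i hi h0
    rw [Finset.mem_Ico] at hi
    refine hdet i hi.1 hi.2 (Matrix.exists_mulVec_eq_zero_iff.1 ⟨c, hc, ?_⟩)
    funext r
    simp only [Matrix.mulVec, dotProduct, bord, Matrix.of_apply, Pi.zero_apply]
    by_cases hr : r.val < e
    · simp only [if_pos hr]
      exact hc0 r hr
    · simp only [if_neg hr]
      exact h0
  have hdisj : ∀ U ∈ (Finset.Ico e (t + g)).powersetCard (g + 1), Disjoint (Finset.range e) U := by
    intro U hU
    rw [Finset.disjoint_left]
    intro a ha ha'
    have := Finset.mem_Ico.1 ((Finset.mem_powersetCard.1 hU).1 ha')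
    rw [Finset.mem_range] at ha
    omega
  have h := inj_weighted (Finset.Ico e (t + g)) g (by rw [Nat.card_Ico]; omega) hg w hw
    (fun T => pm x (Finset.range e ∪ T) S) (fun U hU => ?_) (Finset.Ico e (e + g)) ?_
  · have e1 : Finset.range e ∪ Finset.Ico e (e + g) = Finset.range (t - 1) := by
      ext a
      simp only [Finset.mem_union, Finset.mem_range, Finset.mem_Ico]
      omega
    simp only [e1] at h
    exact h
  · have hU' := Finset.mem_powersetCard.1 hU
    have hd := hdisj U hU
    have hcard : (Finset.range e ∪ U).card = t := by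
      rw [Finset.card_union_of_disjoint hd, Finset.card_range, hU'.2]; omega
    have hrel : ∀ j : Fin (e + 1), ∑ i ∈ Finset.range e ∪ U,
        x (i + j.val) * pm x ((Finset.range e ∪ U).erase i) S = 0 := by
      intro j
      rw [← pm_cons]
      refine hH _ _ hcard ?_ ?_ ?_ ?_
      · rw [List.length_cons, hS, List.length_range']; omega
      · intro i hi
        rw [Finset.mem_union, Finset.mem_range] at hi
        rcases hi with hi | hi
        · omega
        · exact (Finset.mem_Ico.1 (hU'.1 hi)).2
      · intro a ha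
        rw [List.mem_cons, hS, List.mem_range'_1] at ha
        have := j.isLt
        omega
      · rw [List.nodup_cons]
        refine ⟨?_, List.nodup_range'⟩
        rw [hS, List.mem_range'_1]
        have := j.isLt
        omega
    have h1 : ∑ i ∈ Finset.range e ∪ U, w i * pm x ((Finset.range e ∪ U).erase i) S = 0 := by
      have h2 : ∀ i ∈ Finset.range e ∪ U, w i * pm x ((Finset.range e ∪ U).erase i) S =
          ∑ j : Fin (e + 1), c j * (x (i + j.val) * pm x ((Finset.range e ∪ U).erase i) S) := by
        intro i _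
        simp only [w]
        rw [Finset.sum_mul]
        exact Finset.sum_congr rfl fun j _ => by ring
      rw [Finset.sum_congr rfl h2, Finset.sum_comm]
      refine Finset.sum_eq_zero fun j _ => ?_
      rw [← Finset.mul_sum, hrel j, mul_zero]
    rw [Finset.sum_union hd] at h1
    have h3 : ∑ i ∈ Finset.range e, w i * pm x ((Finset.range e ∪ U).erase i) S = 0 :=
      Finset.sum_eq_zero fun i hi => by
        rw [show w i = 0 from hc0 i (Finset.mem_range.1 hi), zero_mul]
    rw [h3, zero_add] at h1
    rw [← h1]
    refine Finset.sum_congr rfl fun i hi => ?_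
    have : (Finset.range e ∪ U).erase i = Finset.range e ∪ U.erase i := by
      have hni : i ∉ Finset.range e := fun h => Finset.disjoint_left.1 hd h hi
      ext a
      simp only [Finset.mem_erase, Finset.mem_union]
      constructor
      · rintro ⟨h1, h2 | h2⟩
        · exact Or.inl h2
        · exact Or.inr ⟨h1, h2⟩
      · rintro (h2 | h2)
        · exact ⟨fun h => hni (h ▸ h2), Or.inl h2⟩
        · exact ⟨h2.1, Or.inr h2.2⟩
    simp only [this]
  · rw [Finset.mem_powersetCard]
    refine ⟨fun a ha => ?_, by rw [Nat.card_Ico]; omega⟩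
    rw [Finset.mem_Ico] at ha ⊢
    omega

theorem core_zero (x : ℕ → D) (t : ℕ) (ht : 2 ≤ t)
    (hH : ∀ cs : List ℕ, cs.length = t → (∀ c ∈ cs, c < 2 * t - 1) → cs.Nodup →
      pm x (Finset.range t) cs = 0)
    (hq : pm x (Finset.range (t - 1)) (List.range' 1 (t - 1)) ≠ 0)
    (hdet : (Matrix.of fun r j : Fin (t - 1) => x (r.val + (t + j.val))).det ≠ 0) :
    pm x (Finset.range t) (0 :: List.range' 0 (t - 1)) = 0 := by
  classical
  obtain ⟨u, rfl⟩ : ∃ u, t = u + 1 := ⟨t - 1, by omega⟩
  rw [Nat.add_sub_cancel] at hq hdet ⊢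
  -- the matrix with the columns `0, t, …, 2 t - 2`
  let col : Fin (u + 1) → ℕ := Fin.cons 0 (fun j : Fin u => u + 1 + j.val)
  let M : Matrix (Fin (u + 1)) (Fin (u + 1)) D := Matrix.of fun i j => x (i.val + col j)
  have expand : ∀ (S : List ℕ) (c : ℕ), pm x (Finset.range (u + 1)) (c :: S) =
      ∑ i : Fin (u + 1), x (i.val + c) * pm x ((Finset.range (u + 1)).erase i.val) S := by
    intro S c
    rw [pm_cons, ← Fin.sum_univ_eq_sum_range
      (fun i => x (i + c) * pm x ((Finset.range (u + 1)).erase i) S) (u + 1)]
  have hcol : ∀ j, col j < 2 * (u + 1) - 1 := by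
    intro j
    refine Fin.cases ?_ (fun j => ?_) j
    · simp only [col, Fin.cons_zero]; omega
    · simp only [col, Fin.cons_succ]; have := j.isLt; omega
  have hdetM : M.det = 0 := by
    refine Matrix.exists_vecMul_eq_zero_iff.1
      ⟨fun i => pm x ((Finset.range (u + 1)).erase i.val) (List.range' 1 u), ?_, ?_⟩
    · intro h
      have := congrFun h (Fin.last u)
      simp only [Fin.val_last, Pi.zero_apply] at this
      rw [Finset.range_add_one, Finset.erase_insert Finset.notMem_range_self] at this
      exact hq this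
    · funext j
      simp only [Matrix.vecMul, dotProduct, M, Matrix.of_apply, Pi.zero_apply]
      have h1 := hH (col j :: List.range' 1 u) (by simp) ?_ ?_
      · rw [expand] at h1
        rw [← h1]
        exact Finset.sum_congr rfl fun i _ => mul_comm _ _
      · intro c hc
        rw [List.mem_cons, List.mem_range'_1] at hc
        rcases hc with rfl | hc
        · exact hcol j
        · omega
      · rw [List.nodup_cons, List.mem_range'_1]
        refine ⟨?_, List.nodup_range'⟩
        refine Fin.cases ?_ (fun j => ?_) j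
        · simp only [col, Fin.cons_zero]; omega
        · simp only [col, Fin.cons_succ]; omega
  obtain ⟨v, hv, hMv⟩ := Matrix.exists_mulVec_eq_zero_iff.2 hdetM
  have hv0 : v 0 ≠ 0 := by
    intro h0
    apply hdet
    refine Matrix.exists_mulVec_eq_zero_iff.1 ⟨fun j => v j.succ, ?_, ?_⟩
    · intro h
      apply hv
      funext j
      refine Fin.cases h0 (fun j => congrFun h j) j
    · funext r
      have h1 := congrFun hMv r.castSucc
      simp only [Matrix.mulVec, dotProduct, M, Matrix.of_apply, Pi.zero_apply] at h1 ⊢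
      rw [Fin.sum_univ_succ, h0, mul_zero, zero_add] at h1
      simp only [col, Fin.cons_succ, Fin.val_castSucc] at h1
      exact h1
  -- the cofactors for the columns `0, …, t - 2`
  let q : Fin (u + 1) → D := fun i => pm x ((Finset.range (u + 1)).erase i.val) (List.range' 0 u)
  have hqc : ∀ j : Fin u, ∑ i : Fin (u + 1), x (i.val + (u + 1 + j.val)) * q i = 0 := by
    intro j
    rw [← expand (List.range' 0 u)]
    refine hH _ (by simp) ?_ ?_
    · intro c hc
      rw [List.mem_cons, List.mem_range'_1] at hc
      have := j.isLt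
      omega
    · rw [List.nodup_cons, List.mem_range'_1]
      exact ⟨by omega, List.nodup_range'⟩
  have h2 : ∑ i : Fin (u + 1), q i * ∑ j : Fin (u + 1), M i j * v j = 0 :=
    Finset.sum_eq_zero fun i _ => by
      have := congrFun hMv i
      simp only [Matrix.mulVec, dotProduct, Pi.zero_apply] at this
      rw [this, mul_zero]
  have h3 : ∑ i : Fin (u + 1), q i * ∑ j : Fin (u + 1), M i j * v j =
      ∑ j : Fin (u + 1), v j * ∑ i : Fin (u + 1), x (i.val + col j) * q i := by
    simp only [Finset.mul_sum]
    rw [Finset.sum_comm]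
    refine Finset.sum_congr rfl fun j _ => Finset.sum_congr rfl fun i _ => ?_
    simp only [M, Matrix.of_apply]
    ring
  rw [h3, Fin.sum_univ_succ] at h2
  have h4 : ∑ j : Fin u, v j.succ * ∑ i : Fin (u + 1), x (i.val + col j.succ) * q i = 0 :=
    Finset.sum_eq_zero fun j _ => by
      simp only [col, Fin.cons_succ]
      rw [hqc j, mul_zero]
  rw [h4, add_zero] at h2
  have h5 := (mul_eq_zero.1 h2).resolve_left hv0
  rw [expand]
  simp only [col, Fin.cons_zero] at h5
  exact h5

end Pool.Agent.N186.HK
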