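import Pool.Agent.N186.HK.Core
import Pool.Agent.R831.PermIdeal

/-!
Hankel matrices of variables: the variables as a sequence, evaluations, and elements which are not
in the permanental ideal.
-/

set_option autoImplicit false

namespace Pool.Agent.N186.HK

open Matrix Finset Polynomial
open Pool.Agent.R831.PermIdeal (permIdeal mem_permIdeal permIdeal_transpose)

/-- the matrix `(x_{f i j})` is a Hankel matrix -/
def IsHankel {m n : ℕ} {σ : Type*} (f : Fin m → Fin n → σ) : Prop :=
  ∀ i j i' j', f i j = f i' j' ↔ i.val + j.val = i'.val + j'.val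

variable {k σ : Type*} [Field k] {m n : ℕ}

/-- the matrix of variables -/
noncomputable def vm (k : Type*) [Field k] {σ : Type*} {m n : ℕ} (f : Fin m → Fin n → σ) :
    Matrix (Fin m) (Fin n) (MvPolynomial σ k) :=
  Matrix.of fun i j => MvPolynomial.X (f i j)

/-- the variable on the `s`-th antidiagonal -/
noncomputable def zz (k : Type*) [Field k] {σ : Type*} {m n : ℕ} (f : Fin m → Fin n → σ) (s : ℕ) :
    MvPolynomial σ k :=
  if h : 0 < m ∧ 0 < n ∧ s + 1 < m + n then
    MvPolynomial.X (f ⟨min s (m - 1), by omega⟩ ⟨s - min s (m - 1), by omega⟩) else 0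

lemma zz_eq {f : Fin m → Fin n → σ} (hf : IsHankel f) (i : Fin m) (j : Fin n) :
    zz k f (i.val + j.val) = MvPolynomial.X (f i j) := by
  have hi := i.isLt
  have hj := j.isLt
  unfold zz
  rw [dif_pos (by omega)]
  congr 1
  rw [hf]
  simp only
  omega

/-- the evaluation at a sequence -/
noncomputable def ev (f : Fin m → Fin n → σ) (b : ℕ → k[X]) : MvPolynomial σ k →+* k[X] :=
  (MvPolynomial.aeval (fun v => by
    classical
    exact if h : ∃ p : Fin m × Fin n, f p.1 p.2 = v then
      b ((Classical.choose h).1.val + (Classical.choose h).2.val) else 0) :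
      MvPolynomial σ k →ₐ[k] k[X]).toRingHom

lemma ev_X {f : Fin m → Fin n → σ} (hf : IsHankel f) (b : ℕ → k[X]) (i : Fin m) (j : Fin n) :
    ev f b (MvPolynomial.X (f i j)) = b (i.val + j.val) := by
  classical
  have hex : ∃ p : Fin m × Fin n, f p.1 p.2 = f i j := ⟨(i, j), rfl⟩
  unfold ev
  simp only [AlgHom.toRingHom_eq_coe, RingHom.coe_coe, MvPolynomial.aeval_X]
  rw [dif_pos hex]
  congr 1
  exact (hf _ _ _ _).1 (Classical.choose_spec hex)

lemma ev_zz {f : Fin m → Fin n → σ} (hf : IsHankel f) (b : ℕ → k[X]) (hm : 0 < m) (hn : 0 < n)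
    {s : ℕ} (hs : s + 1 < m + n) : ev f b (zz k f s) = b s := by
  have h1 : s = (⟨min s (m - 1), by omega⟩ : Fin m).val +
      (⟨s - min s (m - 1), by omega⟩ : Fin n).val := by
    simp only
    omega
  conv_lhs => rw [h1]
  rw [zz_eq hf, ev_X hf, ← h1]

lemma perm_eq {f : Fin m → Fin n → σ} (hf : IsHankel f) {t : ℕ} (r : Fin t ↪ Fin m)
    (c : Fin t ↪ Fin n) : ((vm k f).submatrix r c).permanent =
      pm (zz k f) (Finset.univ.image fun i => (r i).val) (List.ofFn fun j => (c j).val) := by
  rw [← permanent_eq_pm (zz k f) t (fun i => (r i).val) (Fin.val_injective.comp r.injective)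
    (fun j => (c j).val)]
  congr 1
  ext1 i j
  simp only [Matrix.submatrix_apply, vm, Matrix.of_apply]
  exact (zz_eq hf _ _).symm

lemma pm_mem {f : Fin m → Fin n → σ} (hf : IsHankel f) {t : ℕ} {R : Finset ℕ} {cs : List ℕ}
    (hR : R.card = t) (hcs : cs.length = t) (hRm : ∀ i ∈ R, i < m) (hcn : ∀ c ∈ cs, c < n)
    (hnd : cs.Nodup) : pm (zz k f) R cs ∈ permIdeal t (vm k f) := by
  subst hcs
  have h := mem_permIdeal (vm k f)
    (⟨fun i => ⟨R.orderEmbOfFin hR i, hRm _ (R.orderEmbOfFin_mem hR i)⟩, fun i j hij => by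
      simp only [Fin.mk.injEq] at hij
      exact (R.orderEmbOfFin hR).injective hij⟩ : Fin cs.length ↪ Fin m)
    (⟨fun j => ⟨cs.get j, hcn _ (List.get_mem _ _)⟩, fun i j hij => by
      simp only [Fin.mk.injEq] at hij
      exact (List.nodup_iff_injective_get.1 hnd) hij⟩ : Fin cs.length ↪ Fin n)
  rw [perm_eq hf] at h
  convert h using 2
  · ext a
    simp only [Function.Embedding.coeFn_mk, Finset.mem_image, Finset.mem_univ, true_and]
    constructor
    · intro ha
      have : a ∈ Set.range (R.orderEmbOfFin hR) := by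
        rw [Finset.range_orderEmbOfFin]
        exact ha
      exact this
    · rintro ⟨i, rfl⟩
      exact R.orderEmbOfFin_mem hR i
  · simp only [Function.Embedding.coeFn_mk]
    exact (List.ofFn_get cs).symm

lemma le_of_strictMono {t : ℕ} (g : Fin t → ℕ) (hg : StrictMono g) (i : Fin t) : i.val ≤ g i := by
  obtain ⟨i, hi⟩ := i
  induction i with
  | zero => exact Nat.zero_le _
  | succ i ih =>
    exact Nat.succ_le_of_lt (lt_of_le_of_lt (ih (by omega)) (hg (Fin.mk_lt_mk.2 (Nat.lt_succ_self i))))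

/-- permanents scale with `X ^ t` -/
lemma le_comap_scale {f : Fin m → Fin n → σ} (hf : IsHankel f) (a : ℕ → k) (t : ℕ) :
    permIdeal t (vm k f) ≤
      (Ideal.span {(Polynomial.X : k[X]) ^ t}).comap (ev f fun i => C (a i) * X) := by
  unfold Pool.Agent.R831.PermIdeal.permIdeal
  rw [Ideal.span_le]
  rintro _ ⟨r, c, rfl⟩
  rw [SetLike.mem_coe, Ideal.mem_comap, Ideal.mem_span_singleton]
  have h := perm_eq (k := k) hf r.toEmbedding c.toEmbedding
  simp only [RelEmbedding.coe_toEmbedding] at h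
  rw [h, pm_map]
  rw [pm_congr (y := fun i => C (a i) * X)]
  · rw [pm_scale, List.length_ofFn]
    exact dvd_mul_right _ _
  · intro i hi c' hc'
    rw [Finset.mem_image] at hi
    obtain ⟨i', -, rfl⟩ := hi
    rw [List.mem_ofFn] at hc'
    obtain ⟨j', rfl⟩ := hc'
    rw [zz_eq hf, ev_X hf]

lemma pm_not_mem {f : Fin m → Fin n → σ} (hf : IsHankel f) {t : ℕ} (hm : 0 < m) (hn : 0 < n)
    (a : ℕ → k) (R : Finset ℕ)
    (cs : List ℕ) (hcs : cs.length < t) (hidx : ∀ i ∈ R, ∀ c ∈ cs, i + c + 1 < m + n)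
    (ha : pm a R cs ≠ 0) : pm (zz k f) R cs ∉ permIdeal t (vm k f) := by
  intro h
  have h1 := le_comap_scale hf a t h
  rw [Ideal.mem_comap, Ideal.mem_span_singleton, pm_map, pm_congr (y := fun i => C (a i) * X),
    pm_scale] at h1
  · rw [Polynomial.X_pow_dvd_iff] at h1
    have := h1 _ hcs
    rw [Polynomial.coeff_X_pow_mul', if_pos le_rfl, Nat.sub_self, Polynomial.coeff_C_zero] at this
    exact ha this
  · intro i hi c hc
    exact ev_zz hf _ hm hn (hidx i hi c hc)

lemma det_not_mem {f : Fin m → Fin n → σ} (hf : IsHankel f) {t : ℕ} (hm : 0 < m) (hn : 0 < n)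
    (a : ℕ → k) {l : ℕ} (hl : l < t) (idx : Fin l → Fin l → ℕ)
    (hidx : ∀ i j, idx i j + 1 < m + n)
    (ha : (Matrix.of fun i j => a (idx i j)).det ≠ 0) :
    (Matrix.of fun i j => zz k f (idx i j)).det ∉ permIdeal t (vm k f) := by
  intro h
  have h1 := le_comap_scale hf a t h
  rw [Ideal.mem_comap, Ideal.mem_span_singleton, RingHom.map_det] at h1
  have h2 : (ev f fun i => C (a i) * X).mapMatrix (Matrix.of fun i j => zz k f (idx i j)) =
      (X : k[X]) • (C : k →+* k[X]).mapMatrix (Matrix.of fun i j => a (idx i j)) := by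
    ext1 i j
    simp only [RingHom.mapMatrix_apply, Matrix.map_apply, Matrix.of_apply, Matrix.smul_apply,
      smul_eq_mul]
    rw [ev_zz hf _ hm hn (hidx i j), mul_comm]
  rw [h2, Matrix.det_smul, ← RingHom.map_det, Fintype.card_fin, Polynomial.X_pow_dvd_iff] at h1
  have := h1 _ hl
  rw [Polynomial.coeff_X_pow_mul', if_pos le_rfl, Nat.sub_self, Polynomial.coeff_C_zero] at this
  exact ha this

/-- permanents have weight at least `t ^ 2` -/
lemma le_comap_weight {f : Fin m → Fin n → σ} (hf : IsHankel f) (a : ℕ → k) (t : ℕ) :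
    permIdeal t (vm k f) ≤
      (Ideal.span {(Polynomial.X : k[X]) ^ (∑ i ∈ Finset.range t, i + ∑ i ∈ Finset.range t, i + t)}).comap
        (ev f fun i => C (a i) * X ^ (i + 1)) := by
  unfold Pool.Agent.R831.PermIdeal.permIdeal
  rw [Ideal.span_le]
  rintro _ ⟨r, c, rfl⟩
  rw [SetLike.mem_coe, Ideal.mem_comap, Ideal.mem_span_singleton]
  have h := perm_eq (k := k) hf r.toEmbedding c.toEmbedding
  simp only [RelEmbedding.coe_toEmbedding] at h
  have hinj : Function.Injective fun i => (r i).val := Fin.val_injective.comp r.injective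
  have hcard : (Finset.univ.image fun i => (r i).val).card =
      (List.ofFn fun j => (c j).val).length := by
    rw [Finset.card_image_of_injective _ hinj, Finset.card_univ, Fintype.card_fin,
      List.length_ofFn]
  rw [h, pm_map]
  rw [pm_congr (y := fun i => C (a i) * X ^ (i + 1))]
  · rw [pm_weight _ _ _ hcard, List.length_ofFn]
    refine Dvd.dvd.mul_right (pow_dvd_pow _ ?_) _
    have e1 : ∑ i ∈ Finset.range t, i ≤ ∑ i ∈ Finset.univ.image (fun i => (r i).val), i := by
      rw [Finset.sum_image hinj.injOn, ← Fin.sum_univ_eq_sum_range (fun i => i) t]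
      exact Finset.sum_le_sum fun i _ => le_of_strictMono (fun i => (r i).val)
        (fun a b hab => r.strictMono hab) i
    have e2 : ∑ i ∈ Finset.range t, i ≤ (List.ofFn fun j => (c j).val).sum := by
      rw [List.sum_ofFn, ← Fin.sum_univ_eq_sum_range (fun i => i) t]
      exact Finset.sum_le_sum fun i _ => le_of_strictMono (fun i => (c i).val)
        (fun a b hab => c.strictMono hab) i
    omega
  · intro i hi c' hc'
    rw [Finset.mem_image] at hi
    obtain ⟨i', -, rfl⟩ := hi
    rw [List.mem_ofFn] at hc'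
    obtain ⟨j', rfl⟩ := hc'
    rw [zz_eq hf, ev_X hf]

lemma pm_not_mem_weight {f : Fin m → Fin n → σ} (hf : IsHankel f) {t : ℕ} (hm : 0 < m) (hn : 0 < n)
    (a : ℕ → k) (R : Finset ℕ) (cs : List ℕ) (hcs : R.card = cs.length)
    (hw : ∑ i ∈ R, i + cs.sum + cs.length < ∑ i ∈ Finset.range t, i + ∑ i ∈ Finset.range t, i + t)
    (hidx : ∀ i ∈ R, ∀ c ∈ cs, i + c + 1 < m + n)
    (ha : pm a R cs ≠ 0) : pm (zz k f) R cs ∉ permIdeal t (vm k f) := by
  intro h
  have h1 := le_comap_weight hf a t h
  rw [Ideal.mem_comap, Ideal.mem_span_singleton, pm_map,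
    pm_congr (y := fun i => C (a i) * X ^ (i + 1)), pm_weight _ _ _ hcs] at h1
  · rw [Polynomial.X_pow_dvd_iff] at h1
    have := h1 _ hw
    rw [Polynomial.coeff_X_pow_mul', if_pos le_rfl, Nat.sub_self, Polynomial.coeff_C_zero] at this
    exact ha this
  · intro i hi c hc
    exact ev_zz hf _ hm hn (hidx i hi c hc)

end Pool.Agent.N186.HK
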