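import Pool.Agent.N186.HK.Eval

/-!
The permanental ideals of Hankel matrices with `m + n ≥ 3 t - 1` are not prime.
-/

set_option autoImplicit false

namespace Pool.Agent.N186.HK

open Matrix Finset Polynomial
open Pool.Agent.R831.PermIdeal (permIdeal mem_permIdeal permIdeal_transpose)

/-- an antidiagonal permutation matrix is invertible -/
lemma det_anti {k : Type*} [Field k] (l s : ℕ) :
    (Matrix.of fun i j : Fin l =>
      (if i.val + (s + j.val) = s + l - 1 then (1 : k) else 0)).det ≠ 0 := by
  intro h
  obtain ⟨v, hv, h⟩ := Matrix.exists_mulVec_eq_zero_iff.2 h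
  apply hv
  funext j
  have hj := j.isLt
  have h1 := congrFun h ⟨l - 1 - j.val, by omega⟩
  simp only [Matrix.mulVec, dotProduct, Matrix.of_apply, Pi.zero_apply] at h1
  rw [Finset.sum_eq_single j] at h1
  · rw [if_pos (by omega), one_mul] at h1
    exact h1
  · intro b _ hb
    have : b.val ≠ j.val := fun h => hb (Fin.ext h)
    have := b.isLt
    rw [if_neg (by omega), zero_mul]
  · intro h
    exact absurd (Finset.mem_univ _) h

/-- the bordered matrix at the indicator of `e` and `i` is invertible -/
lemma det_bord {k : Type*} [Field k] (e i : ℕ) (hi : e ≤ i) :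
    (Matrix.of fun r j : Fin (e + 1) =>
      (fun s => if s = e ∨ s = i then (1 : k) else 0)
        (if r.val < e then r.val + j.val else i + j.val)).det ≠ 0 := by
  intro h
  obtain ⟨v, hv, h⟩ := Matrix.exists_mulVec_eq_zero_iff.2 h
  have key : ∀ d : ℕ, ∀ hd : d ≤ e, v ⟨e - d, by omega⟩ = 0 := by
    intro d
    induction d using Nat.strong_induction_on with
    | _ d ih =>
      intro hd
      have h1 := congrFun h ⟨d, by omega⟩
      simp only [Matrix.mulVec, dotProduct, Matrix.of_apply, Pi.zero_apply] at h1
      rw [Finset.sum_eq_single (⟨e - d, by omega⟩ : Fin (e + 1))] at h1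
      · rcases Nat.lt_or_ge d e with h2 | h2
        · simp only [if_pos h2] at h1
          rw [if_pos (by omega), one_mul] at h1
          exact h1
        · have h3 : d = e := by omega
          subst h3
          simp only [lt_irrefl, if_false] at h1
          rw [if_pos (by omega), one_mul] at h1
          exact h1
      · intro b _ hb
        have hb' : b.val ≠ e - d := fun h => hb (Fin.ext h)
        have hb2 := b.isLt
        rcases Nat.lt_or_ge d e with h2 | h2
        · simp only [if_pos h2]
          by_cases h3 : d + b.val = i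
          · have h4 := ih (e - b.val) (by omega) (by omega)
            have h5 : (⟨e - (e - b.val), by omega⟩ : Fin (e + 1)) = b := by
              apply Fin.ext
              simp only
              omega
            rw [h5] at h4
            rw [h4, mul_zero]
          · rw [if_neg (by omega), zero_mul]
        · simp only [if_neg (not_lt.2 h2)]
          rw [if_neg (by omega), zero_mul]
      · intro h
        exact absurd (Finset.mem_univ _) h
  apply hv
  funext j
  have hj := j.isLt
  have h1 := key (e - j.val) (by omega)
  have h2 : (⟨e - (e - j.val), by omega⟩ : Fin (e + 1)) = j := by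
    apply Fin.ext
    simp only
    omega
  rw [h2] at h1
  exact h1

/-- the value of the permanent in the second case -/
lemma pm_two {k : Type*} [Field k] (t : ℕ) (ht : 2 ≤ t) :
    pm (fun s => if s = t - 2 ∨ s = t - 1 then (1 : k) else 0) (Finset.range t)
      (0 :: List.range' 0 (t - 1)) = 2 := by
  obtain ⟨u, rfl⟩ : ∃ u, t = u + 2 := ⟨t - 2, by omega⟩
  rw [show u + 2 - 2 = u by omega, show u + 2 - 1 = u + 1 by omega]
  set a : ℕ → k := fun s => if s = u ∨ s = u + 1 then (1 : k) else 0 with ha
  have a0 : ∀ s < u, a s = 0 := fun s hs => by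
    simp only [ha]
    rw [if_neg (by omega)]
  have a1 : a u = 1 := by simp [ha]
  have a2 : a (u + 1) = 1 := by simp [ha]
  have p1 := pm_anti a u a0 a1 (u + 1) le_rfl
  have p2 := pm_anti a u a0 a1 u (by omega)
  rw [show u + 1 - (u + 1) = 0 by omega] at p1
  rw [show u + 1 - u = 1 by omega] at p2
  rw [pm_cons, Finset.sum_range_succ, Finset.sum_range_succ,
    Finset.sum_eq_zero (fun i hi => by
      rw [Finset.mem_range] at hi
      rw [add_zero, a0 i hi, zero_mul]), zero_add, add_zero, add_zero, a1, a2, one_mul, one_mul]
  have e1 : (Finset.range (u + 1 + 1)).erase (u + 1) = Finset.range (u + 1) := by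
    rw [Finset.range_add_one, Finset.erase_insert Finset.notMem_range_self]
  have e2 : pm a ((Finset.range (u + 1 + 1)).erase u) (List.range' 0 (u + 1)) = 1 := by
    rw [List.range'_succ, pm_cons, Finset.sum_eq_single (u + 1)]
    · have e3 : ((Finset.range (u + 1 + 1)).erase u).erase (u + 1) = Finset.range u := by
        ext b
        simp only [Finset.mem_erase, Finset.mem_range]
        omega
      rw [e3, add_zero, a2, one_mul, zero_add]
      exact p2
    · intro b hb hb'
      rw [Finset.mem_erase, Finset.mem_range] at hb
      rw [add_zero, a0 b (by omega), zero_mul]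
    · intro h
      exact absurd (by rw [Finset.mem_erase, Finset.mem_range]; omega) h
  rw [e1, e2, p1]
  norm_num

variable {k σ : Type*} [Field k] {m n : ℕ}

theorem aux (h2 : (2 : k) ≠ 0) {t : ℕ} (ht : 2 ≤ t) (hm : t ≤ m) (hmn : m ≤ n)
    (h3 : 3 * t ≤ m + n + 1) (hfac : ((2 * t - n).factorial : k) ≠ 0)
    {f : Fin m → Fin n → σ} (hf : IsHankel f) : ¬ (permIdeal t (vm k f)).IsPrime := by
  intro hP
  have hm0 : 0 < m := by omega
  have hn0 : 0 < n := by omega
  have : IsDomain (MvPolynomial σ k ⧸ permIdeal t (vm k f)) := Ideal.Quotient.isDomain _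
  set π := Ideal.Quotient.mk (permIdeal t (vm k f)) with hπ
  let x : ℕ → MvPolynomial σ k ⧸ permIdeal t (vm k f) := fun s => π (zz k f s)
  have hx : ∀ R cs, π (pm (zz k f) R cs) = pm x R cs := fun R cs => pm_map π _ cs R
  have hmem : ∀ (R : Finset ℕ) (cs : List ℕ), R.card = t → cs.length = t → (∀ i ∈ R, i < m) →
      (∀ c ∈ cs, c < n) → cs.Nodup → pm x R cs = 0 := by
    intro R cs h1 h2 h3 h4 h5
    rw [← hx]
    exact Ideal.Quotient.eq_zero_iff_mem.2 (pm_mem hf h1 h2 h3 h4 h5)
  have hnot : ∀ (a : ℕ → k) (R : Finset ℕ) (cs : List ℕ), cs.length < t →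
      (∀ i ∈ R, ∀ c ∈ cs, i + c + 1 < m + n) → pm a R cs ≠ 0 → pm x R cs ≠ 0 := by
    intro a R cs h1 h2 h3 h4
    rw [← hx] at h4
    exact pm_not_mem hf hm0 hn0 a R cs h1 h2 h3 (Ideal.Quotient.eq_zero_iff_mem.1 h4)
  have hdet : ∀ (a : ℕ → k) {l : ℕ} (_ : l < t) (idx : Fin l → Fin l → ℕ)
      (_ : ∀ i j, idx i j + 1 < m + n) (_ : (Matrix.of fun i j => a (idx i j)).det ≠ 0),
      (Matrix.of fun i j => x (idx i j)).det ≠ 0 := by
    intro a l hl idx hidx ha h0
    apply det_not_mem (k := k) hf hm0 hn0 a hl idx hidx ha
    rw [← Ideal.Quotient.eq_zero_iff_mem, RingHom.map_det]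
    exact h0
  rcases Nat.lt_or_ge n (2 * t - 1) with hn | hn
  · -- the first case
    obtain ⟨e, he⟩ : ∃ e, e = n - t := ⟨_, rfl⟩
    obtain ⟨g, hg⟩ : ∃ g, g = t - 1 - e := ⟨_, rfl⟩
    have h0 := core_pos x t e g (by omega) ?_ (fun R cs h1 h2 h3 h4 h5 =>
      hmem R cs h1 h2 (fun i hi => lt_of_lt_of_le (h3 i hi) (by omega))
        (fun c hc => lt_of_lt_of_le (h4 c hc) (by omega)) h5) ?_
    · refine hnot (fun s => if s = e + t - 1 then 1 else 0) _ _ ?_ ?_ ?_ h0
      · rw [List.length_range']; omega
      · intro i hi c hc
        rw [Finset.mem_range] at hi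
        rw [List.mem_range'_1] at hc
        omega
      · have := pm_anti (fun s => if s = e + t - 1 then (1 : k) else 0) (e + t - 1)
          (fun s hs => by rw [if_neg (by omega)]) (by simp) (t - 1) (by omega)
        rw [show e + t - 1 + 1 - (t - 1) = e + 1 by omega] at this
        rw [this]
        exact one_ne_zero
    · rw [show g + 1 = 2 * t - n by omega]
      intro h
      apply hfac
      have h' : algebraMap k (MvPolynomial σ k ⧸ permIdeal t (vm k f))
          ((2 * t - n).factorial : k) = 0 := by
        rw [map_natCast]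
        exact h
      exact (map_eq_zero_iff _ (FaithfulSMul.algebraMap_injective _ _)).1 h'
    · intro i hi hi'
      have := hdet (fun s => if s = e ∨ s = i then (1 : k) else 0) (l := e + 1) (by omega)
        (fun r j => if r.val < e then r.val + j.val else i + j.val) ?_ (det_bord e i hi)
      · have e1 : bord x e i = (Matrix.of fun r j : Fin (e + 1) =>
            x (if r.val < e then r.val + j.val else i + j.val)) := by
          ext1 r j
          simp only [bord, Matrix.of_apply]
          split_ifs <;> rfl
        rw [e1]
        exact this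
      · intro r j
        have := r.isLt
        have := j.isLt
        split_ifs <;> omega
  · -- the second case
    have h0 := core_zero x t ht (fun cs h1 h2 h3 => hmem _ cs (Finset.card_range t) h1
      (fun i hi => by rw [Finset.mem_range] at hi; omega)
      (fun c hc => lt_of_lt_of_le (h2 c hc) (by omega)) h3) ?_ ?_
    · rw [← hx, Ideal.Quotient.eq_zero_iff_mem] at h0
      refine pm_not_mem_weight hf hm0 hn0 (fun s => if s = t - 2 ∨ s = t - 1 then (1 : k) else 0)
        _ _ ?_ ?_ ?_ ?_ h0
      · rw [Finset.card_range, List.length_cons, List.length_range']; omega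
      · obtain ⟨u, rfl⟩ : ∃ u, t = u + 2 := ⟨t - 2, by omega⟩
        rw [List.sum_cons, List.length_cons, List.length_range', List.sum_range',
          show u + 2 - 1 = u + 1 by omega, mul_one, ← Finset.sum_range_id_mul_two (u + 1),
          Nat.mul_div_cancel _ two_pos, Finset.sum_range_succ _ (u + 1)]
        omega
      · intro i hi c hc
        rw [Finset.mem_range] at hi
        rw [List.mem_cons, List.mem_range'_1] at hc
        omega
      · rw [pm_two t ht]
        exact h2
    · refine hnot (fun s => if s = t - 1 then 1 else 0) _ _ ?_ ?_ ?_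
      · rw [List.length_range']; omega
      · intro i hi c hc
        rw [Finset.mem_range] at hi
        rw [List.mem_range'_1] at hc
        omega
      · have := pm_anti (fun s => if s = t - 1 then (1 : k) else 0) (t - 1)
          (fun s hs => by rw [if_neg (by omega)]) (by simp) (t - 1) (by omega)
        rw [show t - 1 + 1 - (t - 1) = 1 by omega] at this
        rw [this]
        exact one_ne_zero
    · refine hdet (fun s => if s = t + (t - 1) - 1 then (1 : k) else 0) (l := t - 1) (by omega)
        (fun r j => r.val + (t + j.val)) ?_ (det_anti (t - 1) t)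
      intro r j
      have := r.isLt
      have := j.isLt
      omega

end Pool.Agent.N186.HK
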