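import Mathlib

/-!
Permanents of Hankel matrices with rows in a finite set of natural numbers and a list of columns,
defined by expansion along the columns.
-/

set_option autoImplicit false

namespace Pool.Agent.N186.HK

open Matrix Finset

/-- `pm x R cs` is the permanent of the matrix `x (i + c)`, `i ∈ R`, `c` in the list `cs`. -/
def pm {D : Type*} [CommSemiring D] (x : ℕ → D) : Finset ℕ → List ℕ → D
  | _, [] => 1
  | R, c :: cs => ∑ i ∈ R, x (i + c) * pm x (R.erase i) cs

section

variable {D : Type*} [CommRing D]

lemma pm_nil (x : ℕ → D) (R : Finset ℕ) : pm x R [] = 1 := by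
  unfold pm; rfl

lemma pm_cons (x : ℕ → D) (R : Finset ℕ) (c : ℕ) (cs : List ℕ) :
    pm x R (c :: cs) = ∑ i ∈ R, x (i + c) * pm x (R.erase i) cs := by
  rw [pm]

lemma pm_map {S : Type*} [CommRing S] (f : D →+* S) (x : ℕ → D) (cs : List ℕ) :
    ∀ R : Finset ℕ, f (pm x R cs) = pm (fun k => f (x k)) R cs := by
  induction cs with
  | nil => intro R; rw [pm_nil, pm_nil, map_one]
  | cons c cs ih =>
    intro R
    rw [pm_cons, pm_cons, map_sum]
    exact Finset.sum_congr rfl fun i _ => by rw [map_mul, ih]

lemma pm_congr {x y : ℕ → D} (cs : List ℕ) :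
    ∀ R : Finset ℕ, (∀ i ∈ R, ∀ c ∈ cs, x (i + c) = y (i + c)) → pm x R cs = pm y R cs := by
  induction cs with
  | nil => intro R _; rw [pm_nil, pm_nil]
  | cons c cs ih =>
    intro R h
    rw [pm_cons, pm_cons]
    refine Finset.sum_congr rfl fun i hi => ?_
    rw [h i hi c List.mem_cons_self, ih (R.erase i) fun j hj d hd =>
      h j (Finset.mem_of_mem_erase hj) d (List.mem_cons_of_mem _ hd)]

/-- expansion of the permanent along the first column -/
lemma permanent_succ {n : ℕ} (A : Matrix (Fin (n + 1)) (Fin (n + 1)) D) :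
    A.permanent = ∑ p : Fin (n + 1), A p 0 *
      (Matrix.of fun i j : Fin n => A (Equiv.swap 0 p i.succ) j.succ).permanent := by
  unfold permanent
  rw [← Equiv.Perm.decomposeFin.symm.sum_comp, Fintype.sum_prod_type]
  refine Finset.sum_congr rfl fun p _ => ?_
  rw [Finset.mul_sum]
  refine Finset.sum_congr rfl fun e _ => ?_
  rw [Fin.prod_univ_succ]
  simp only [Equiv.Perm.decomposeFin_symm_apply_zero, Equiv.Perm.decomposeFin_symm_apply_succ,
    Matrix.of_apply]

lemma permanent_eq_pm (x : ℕ → D) : ∀ (n : ℕ) (r : Fin n → ℕ), Function.Injective r →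
    ∀ c : Fin n → ℕ, (Matrix.of fun i j : Fin n => x (r i + c j)).permanent =
      pm x (Finset.univ.image r) (List.ofFn c) := by
  intro n
  induction n with
  | zero =>
    intro r _ c
    rw [permanent_isEmpty, List.ofFn_zero, pm_nil]
  | succ n ih =>
    intro r hr c
    rw [permanent_succ, List.ofFn_succ, pm_cons, Finset.sum_image hr.injOn]
    refine Finset.sum_congr rfl fun p _ => ?_
    rw [Matrix.of_apply]
    congr 1
    have hinj : Function.Injective fun i : Fin n => r (Equiv.swap 0 p i.succ) :=
      hr.comp ((Equiv.swap 0 p).injective.comp (Fin.succ_injective n))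
    have := ih (fun i => r (Equiv.swap 0 p i.succ)) hinj (fun j => c j.succ)
    rw [show (Matrix.of fun i j : Fin n => (Matrix.of fun i j : Fin (n + 1) => x (r i + c j))
      (Equiv.swap 0 p i.succ) j.succ) =
      (Matrix.of fun i j : Fin n => x (r (Equiv.swap 0 p i.succ) + c j.succ)) from rfl, this]
    congr 1
    ext a
    simp only [Finset.mem_image, Finset.mem_univ, true_and, Finset.mem_erase]
    constructor
    · rintro ⟨i, rfl⟩
      refine ⟨fun h => ?_, _, rfl⟩
      have h2 := hr h
      have h3 : i.succ = 0 := by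
        have := congrArg (Equiv.swap 0 p) h2
        rw [Equiv.swap_apply_self, Equiv.swap_apply_right] at this
        exact this
      exact Fin.succ_ne_zero i h3
    · rintro ⟨hne, q, rfl⟩
      have hq : Equiv.swap 0 p q ≠ 0 := by
        intro h
        apply hne
        have := congrArg (Equiv.swap 0 p) h
        rw [Equiv.swap_apply_self, Equiv.swap_apply_left] at this
        rw [this]
      obtain ⟨i, hi⟩ := Fin.exists_succ_eq.2 hq
      exact ⟨i, by rw [hi, Equiv.swap_apply_self]⟩

/-- the value for a sequence which vanishes below `d` and is `1` at `d` -/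
lemma pm_anti (a : ℕ → D) (d : ℕ) (h0 : ∀ k < d, a k = 0) (h1 : a d = 1) :
    ∀ l ≤ d + 1, pm a (Finset.range l) (List.range' (d + 1 - l) l) = 1 := by
  intro l
  induction l with
  | zero => intro _; rw [List.range'_zero, pm_nil]
  | succ l ih =>
    intro hl
    rw [List.range'_succ, pm_cons, Finset.sum_eq_single l]
    · rw [show l + (d + 1 - (l + 1)) = d by omega, h1, one_mul, Finset.range_add_one,
        Finset.erase_insert Finset.notMem_range_self,
        show d + 1 - (l + 1) + 1 = d + 1 - l by omega, ih (by omega)]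
    · intro i hi hne
      rw [Finset.mem_range] at hi
      rw [h0 _ (by omega), zero_mul]
    · intro h
      exact absurd (Finset.mem_range.2 (Nat.lt_succ_self l)) h

open Polynomial in
/-- scaling by the degree -/
lemma pm_scale {k : Type*} [CommRing k] (a : ℕ → k) (cs : List ℕ) :
    ∀ R : Finset ℕ, pm (fun i => (C (a i) * X : k[X])) R cs = X ^ cs.length * C (pm a R cs) := by
  induction cs with
  | nil => intro R; rw [pm_nil, pm_nil]; simp
  | cons c cs ih =>
    intro R
    rw [pm_cons, pm_cons, List.length_cons, map_sum, Finset.mul_sum]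
    refine Finset.sum_congr rfl fun i _ => ?_
    rw [ih, map_mul]
    ring

open Polynomial in
/-- scaling by the weight -/
lemma pm_weight {k : Type*} [CommRing k] (a : ℕ → k) (cs : List ℕ) :
    ∀ R : Finset ℕ, R.card = cs.length →
      pm (fun i => (C (a i) * X ^ (i + 1) : k[X])) R cs =
        X ^ (∑ i ∈ R, i + cs.sum + cs.length) * C (pm a R cs) := by
  induction cs with
  | nil =>
    intro R hR
    rw [List.length_nil, Finset.card_eq_zero] at hR
    rw [pm_nil, pm_nil, hR]; simp
  | cons c cs ih =>
    intro R hR
    rw [pm_cons, pm_cons, List.length_cons, map_sum, Finset.mul_sum]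
    refine Finset.sum_congr rfl fun i hi => ?_
    rw [ih _ (by rw [Finset.card_erase_of_mem hi, hR]; rfl), map_mul, List.sum_cons,
      ← Finset.add_sum_erase R _ hi]
    ring

end

end Pool.Agent.N186.HK
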